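import Pool.Agent.Helper42.QD.Stmts

/-!
Module F4.
-/

set_option autoImplicit false

namespace Pool.Agent.Helper42.QD

open VD

variable {D k : Type} [DivisionRing D] [Field k] {c : VD D k} {R : KM c}

/-- the auxiliary element of the first congruence group -/
noncomputable def f4_k (y e : D) : G2 D := nm y * dg 1 (1 + e)

theorem f4_k_val {y e : D} (he : 1 + e ≠ 0) : (f4_k y e).val 0 0 = 1 ∧ (f4_k y e).val 0 1 = 0 ∧
    (f4_k y e).val 1 0 = y ∧ (f4_k y e).val 1 1 = 1 + e := by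
  unfold f4_k
  refine ⟨?_, ?_, ?_, ?_⟩
  · simp [mul00, nm_val, dg_val one_ne_zero he]
  · simp [mul01, nm_val, dg_val one_ne_zero he]
  · simp [mul10, nm_val, dg_val one_ne_zero he]
  · simp [mul11, nm_val, dg_val one_ne_zero he]

theorem f4_kinv_val {y e : D} (he : 1 + e ≠ 0) : (f4_k y e)⁻¹.val 0 0 = 1 ∧
    (f4_k y e)⁻¹.val 0 1 = 0 ∧ (f4_k y e)⁻¹.val 1 0 = -((1 + e)⁻¹ * y) ∧
    (f4_k y e)⁻¹.val 1 1 = (1 + e)⁻¹ := by
  have h1 : (f4_k y e)⁻¹ = dg 1 (1 + e)⁻¹ * nm (-y) := by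
    unfold f4_k
    rw [mul_inv_rev, dg_inv one_ne_zero he, nm_inv, inv_one]
  have he' : (1 + e)⁻¹ ≠ 0 := inv_ne_zero he
  rw [h1]
  refine ⟨?_, ?_, ?_, ?_⟩
  · simp [mul00, nm_val, dg_val one_ne_zero he']
  · simp [mul01, nm_val, dg_val one_ne_zero he']
  · simp [mul10, nm_val, dg_val one_ne_zero he']
  · simp [mul11, nm_val, dg_val one_ne_zero he']

theorem f4_k_KK {y e : D} (hy : c.P 1 y) (he : c.P 1 e) : KK c 1 (f4_k y e) := by
  obtain ⟨h0, h1, h2, h3⟩ := f4_k_val (y := y) (e := e) (one_add he).1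
  refine KK_iff.2 ⟨?_, ?_, ?_, ?_⟩
  · rw [h0, sub_self]; exact c.P_zero 1
  · rw [h1]; exact c.P_zero 1
  · rw [h2]; exact hy
  · rw [h3, add_sub_cancel_left]; exact he

/-- the trace against a type with zero upper left entry -/
theorem f4_trace (B x oh : D) (g : G2 D) : ((!![0, B; x, oh] : Matrix (Fin 2) (Fin 2) D) *
    (g.val - 1)).trace = B * g.val 1 0 + x * g.val 0 1 + oh * (g.val 1 1 - 1) := by
  simp only [Matrix.trace_fin_two, Matrix.mul_apply, Fin.sum_univ_two, sub00, sub01, sub10, sub11]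
  simp [add_assoc]

theorem f4_P (h : ℕ) {oh x B : D} (h1 : c.P (-h) oh) (h2 : c.P (-h) x) (h3 : c.P (-h) B) :
    ∀ i j, c.P (-(h : ℤ)) ((!![0, B; x, oh] : Matrix (Fin 2) (Fin 2) D) i j) :=
  P_of (c.P_zero _) h3 h2 h1

/-- part (a) -/
theorem f4_a (h : ℕ) {oh x B y : D} {g : Sp c} (hh : 2 ≤ h) (hoh : c.P (-h) oh) (hx : x ≠ 0)
    (hvx : c.v x = -h) (hB : c.P (-h) B) (hsupp : ∀ z, g.1 z ≠ 0 → c.P 0 (z - x))
    (hT : Ty R h !![0, B; x, oh] g) (hy : c.P 1 y) {b : D} (hb : c.P (h - 1) b) :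
    R.rho (nn b) (R.rho (f4_k y (oh * y * x⁻¹)) g) =
      c.psi (x * b) • R.rho (f4_k y (oh * y * x⁻¹)) g := by
  have hxi : c.P h x⁻¹ := by
    have := P_inv (c := c) hx
    rwa [hvx, neg_neg] at this
  have hPx : c.P (-h) x := Or.inr hvx.ge
  have he : c.P 1 (oh * y * x⁻¹) := P_mul' (P_mul hoh hy) hxi (by omega)
  have hex : oh * y * x⁻¹ * x = oh * y := by rw [mul_assoc, inv_mul_cancel₀ hx, mul_one]
  generalize oh * y * x⁻¹ = e at he hex
  obtain ⟨hE, hvE⟩ := one_add he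
  have hEi : c.P 1 ((1 + e)⁻¹ - 1) := one_add_inv le_rfl he
  have hE0 : c.P 0 (1 + e) := Or.inr hvE.ge
  have hEi0 : c.P 0 (1 + e)⁻¹ := Or.inr (by rw [v_inv hE, hvE]; simp)
  obtain ⟨k0, k1, k2, k3⟩ := f4_k_val (y := y) hE
  obtain ⟨i0, i1, i2, i3⟩ := f4_kinv_val (y := y) hE
  set K := f4_k y e with hK
  -- the element kappa
  set κ : G2 D := K⁻¹ * nn b * K * nn (-(b * (1 + e))) with hκ
  have hrel : nn b * K = K * (κ * nn (b * (1 + e))) := by
    rw [hκ]
    have : nn (-(b * (1 + e))) * nn (b * (1 + e)) = 1 := by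
      rw [← nn_add, neg_add_cancel, nn_zero]
    rw [mul_assoc (K⁻¹ * nn b * K), this, mul_one]
    group
  have e00 : κ.val 0 0 = 1 + b * y := by
    rw [hκ]
    simp [mul00, mul01, mul10, mul11, nn_val, k0, k1, k2, k3, i0, i1, i2, i3]
  have e01 : κ.val 0 1 = -(b * y * b * (1 + e)) := by
    rw [hκ]
    simp only [mul00, mul01, mul10, mul11, nn_val, k0, k1, k2, k3, i0, i1, i2, i3, Matrix.of_apply,
      Matrix.cons_val', Matrix.cons_val_zero, Matrix.cons_val_one, Matrix.cons_val_fin_one]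
    noncomm_ring
  have e10 : κ.val 1 0 = -((1 + e)⁻¹ * y * b * y) := by
    rw [hκ]
    simp only [mul00, mul01, mul10, mul11, nn_val, k0, k1, k2, k3, i0, i1, i2, i3, Matrix.of_apply,
      Matrix.cons_val', Matrix.cons_val_zero, Matrix.cons_val_one, Matrix.cons_val_fin_one]
    noncomm_ring
  have e11 : κ.val 1 1 - 1 = (1 + e)⁻¹ * y * b * y * b * (1 + e) - (1 + e)⁻¹ * y * b * (1 + e) := by
    rw [hκ]
    simp only [mul00, mul01, mul10, mul11, nn_val, k0, k1, k2, k3, i0, i1, i2, i3, Matrix.of_apply,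
      Matrix.cons_val', Matrix.cons_val_zero, Matrix.cons_val_one, Matrix.cons_val_fin_one]
    have h5 : (1 + e)⁻¹ * (1 + e) = 1 := inv_mul_cancel₀ hE
    have h6 : ∀ (p q : D), p + (1 + e)⁻¹ * (1 + e) - q = p + 1 - q := by
      intro p q
      rw [h5]
    generalize (1 + e)⁻¹ = E' at *
    generalize 1 + e = E at *
    have h7 : ((-(E' * y) * 1 + E' * 0) * 1 + (-(E' * y) * b + E' * 1) * y) * -(b * E) +
        ((-(E' * y) * 1 + E' * 0) * 0 + (-(E' * y) * b + E' * 1) * E) - 1 =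
        E' * y * b * y * b * E - E' * y * b * E + (E' * E - 1) := by
      noncomm_ring
    rw [h5, sub_self, add_zero] at h7
    rw [← h7]
    noncomm_ring
  have hyb : c.P h (y * b) := P_mul' hy hb (by omega)
  have hby : c.P h (b * y) := P_mul' hb hy (by omega)
  have hbyb : c.P (h + 1) (b * y * b) := P_mul' hby hb (by omega)
  have p10 : c.P (h + 1) ((1 + e)⁻¹ * y * b * y) := by
    have : (1 + e)⁻¹ * y * b * y = (1 + e)⁻¹ * (y * b * y) := by simp only [mul_assoc]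
    rw [this]
    exact P_mul' hEi0 (P_mul hyb hy) (by omega)
  have p01 : c.P (h + 1) (b * y * b * (1 + e)) := P_mul' hbyb hE0 (by omega)
  have p11 : c.P (h + 1) (κ.val 1 1 - 1 + y * b) := by
    have : κ.val 1 1 - 1 + y * b = (1 + e)⁻¹ * (y * (b * y * b)) * (1 + e) +
        (-((y * b) * e) - ((1 + e)⁻¹ - 1) * (y * b) * (1 + e)) := by
      rw [e11]
      noncomm_ring
    rw [this]
    refine P_add (P_mul' (P_mul hEi0 (P_mul hy hbyb)) hE0 (by omega)) (P_sub (P_neg ?_) ?_)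
    · exact P_mul' hyb he (by omega)
    · exact P_mul' (P_mul hEi hyb) hE0 (by omega)
  have hKK : KK c h κ := by
    refine KK_iff.2 ⟨?_, ?_, ?_, ?_⟩
    · rw [e00, add_sub_cancel_left]; exact hby
    · rw [e01]; exact P_neg (P_mono (by omega) p01)
    · rw [e10]; exact P_neg (P_mono (by omega) p10)
    · have : κ.val 1 1 - 1 = (κ.val 1 1 - 1 + y * b) - y * b := by rw [add_sub_cancel_right]
      rw [this]
      exact P_sub (P_mono (by omega) p11) hyb
  have hact : R.rho κ g = c.psi (-(oh * y * b)) • g := by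
    rw [hT κ hKK, f4_trace]
    congr 1
    apply psi_congr
    have : B * κ.val 1 0 + x * κ.val 0 1 + oh * (κ.val 1 1 - 1) - -(oh * y * b) =
        B * κ.val 1 0 + x * κ.val 0 1 + oh * (κ.val 1 1 - 1 + y * b) := by
      noncomm_ring
    rw [this, e10, e01]
    exact P_add (P_add (P_mul' hB (P_neg p10) (by omega)) (P_mul' hPx (P_neg p01) (by omega)))
      (P_mul' hoh p11 (by omega))
  have hbE : c.P (h - 1) (b * (1 + e)) := P_mul' hb hE0 (by omega)
  have hact2 : R.rho (nn (b * (1 + e))) g = c.psi (x * (b * (1 + e))) • g :=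
    nn_of_supp' (i := (h : ℤ) - 1) (fun z hz => P_mono (by omega) (hsupp z hz)) hbE
  rw [← rho_mul, hrel, rho_mul, rho_mul, hact2, map_smul, hact, map_smul, map_smul, smul_smul]
  congr 1
  have h8 : x * (b * (1 + e)) = x * b + (x * b) * e := by noncomm_ring
  have h9 : c.psi ((x * b) * e) = c.psi (oh * y * b) := by
    rw [c.psi_comm, ← mul_assoc, hex]
  rw [h8, AddChar.map_add_eq_mul, h9, mul_assoc, ← AddChar.map_add_eq_mul, add_neg_cancel,
    AddChar.map_zero_eq_one, mul_one]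

/-- part (b) -/
theorem f4_b (h : ℕ) {x u : D} {w : Sp c} (hh : 2 ≤ h) (hx : x ≠ 0) (hvx : c.v x = -h)
    (hsupp : ∀ z, w.1 z ≠ 0 → c.P (2 - h) (z - x))
    (hinv : ∀ z t, c.P h t → w.1 (z * (1 + t)) = w.1 z) (hu : c.P (h - 1) u) :
    R.rho (dg (1 + u) (1 + x * u * x⁻¹)) w = R.om (1 + u) • w := by
  have hu1 : c.P 1 u := P_mono (by omega) hu
  obtain ⟨ha, hva⟩ := one_add hu1
  have hai : c.P (h - 1) ((1 + u)⁻¹ - 1) := one_add_inv (by omega) hu
  have ha0 : c.P 0 (1 + u) := Or.inr hva.ge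
  have hd : 1 + x * u * x⁻¹ = x * (1 + u) * x⁻¹ := by
    rw [mul_add, mul_one, add_mul, mul_inv_cancel₀ hx]
  have hd0 : 1 + x * u * x⁻¹ ≠ 0 := by
    rw [hd]
    exact mul_ne_zero (mul_ne_zero hx ha) (inv_ne_zero hx)
  have hom : R.om (1 + x * u * x⁻¹) = R.om (1 + u) := by
    rw [hd, map_mul, map_mul, mul_comm (R.om x), mul_assoc, ← map_mul, mul_inv_cancel₀ hx, map_one,
      mul_one]
  refine Sp_ext fun z => ?_
  rw [R.rt _ _ ha hd0, hom]
  change _ = R.om (1 + u) * w.1 z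
  congr 1
  set t := x⁻¹ * z - 1 with ht
  have hz : z = x * (1 + t) := by
    rw [ht, add_sub_cancel, mul_inv_cancel_left₀ hx]
  have harg : (1 + x * u * x⁻¹)⁻¹ * z * (1 + u) = x * (1 + (1 + u)⁻¹ * t * (1 + u)) := by
    rw [hd, mul_inv_rev, mul_inv_rev, inv_inv, hz]
    have h1 : x * ((1 + u)⁻¹ * x⁻¹) * (x * (1 + t)) * (1 + u) =
        x * ((1 + u)⁻¹ * (x⁻¹ * x) * (1 + t) * (1 + u)) := by simp only [mul_assoc]
    rw [h1, inv_mul_cancel₀ hx, mul_one]
    congr 1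
    rw [mul_add (1 + u)⁻¹ 1 t, mul_one, add_mul, inv_mul_cancel₀ ha]
  have hxi : c.P h x⁻¹ := by
    have := P_inv (c := c) hx
    rwa [hvx, neg_neg] at this
  have hPx : c.P (-h) x := Or.inr hvx.ge
  have hsup2 : ∀ t', w.1 (x * (1 + t')) ≠ 0 → c.P 2 t' := by
    intro t' h1
    have h2 := hsupp _ h1
    have h3 : x * (1 + t') - x = x * t' := by noncomm_ring
    rw [h3] at h2
    exact P_mono (by omega) (P_of_mul_left hx h2)
  rw [harg]
  have hconj : t = (1 + u) * ((1 + u)⁻¹ * t * (1 + u)) * (1 + u)⁻¹ := by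
    rw [mul_assoc (1 + u)⁻¹, mul_inv_cancel_left₀ ha, mul_inv_cancel_right₀ ha]
  by_cases htP : c.P 2 t
  · have h4 : c.P (h + 1) ((1 + u)⁻¹ * t * (1 + u) - t) := by
      have : (1 + u)⁻¹ * t * (1 + u) - t = ((1 + u)⁻¹ - 1) * t * (1 + u) + t * u := by
        noncomm_ring
      rw [this]
      exact P_add (P_mul' (P_mul hai htP) ha0 (by omega)) (P_mul' htP hu (by omega))
    obtain ⟨ht1, hvt⟩ := one_add (P_mono (by omega) htP)
    have h5 : x * (1 + (1 + u)⁻¹ * t * (1 + u)) =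
        z * (1 + (1 + t)⁻¹ * ((1 + u)⁻¹ * t * (1 + u) - t)) := by
      rw [hz, mul_assoc x, mul_add (1 + t), mul_one, mul_inv_cancel_left₀ ht1]
      congr 1
      abel
    rw [h5]
    refine hinv _ _ (P_mul' (m := 0) (n := h + 1) (Or.inr ?_) h4 (by omega))
    rw [v_inv ht1, hvt, neg_zero]
  · have h6 : w.1 z = 0 := by
      by_contra h7
      rw [hz] at h7
      exact htP (hsup2 _ h7)
    rw [h6]
    by_contra h7
    have h8 := hsup2 _ h7
    apply htP
    rw [hconj]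
    exact P_conj ha h8

theorem st_F4 : ST_F4 := by
  intro D k _ _ _ c R h oh x B g hh hOh hx hvx hB hg hT y hy
  obtain ⟨hoh, _, hconj⟩ := hOh
  have hxi : c.P h x⁻¹ := by
    have := P_inv (c := c) hx
    rwa [hvx, neg_neg] at this
  have hPx : c.P (-h) x := Or.inr hvx.ge
  have hsupp : ∀ z, g.1 z ≠ 0 → c.P 0 (z - x) := by
    intro z hz
    by_contra h1
    rw [hg] at hz
    exact hz (ind_apply_of_not h1)
  have hgx : g.1 x = 1 := by
    rw [hg]
    exact ind_apply_of (by rw [sub_self]; exact c.P_zero 0)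
  have he : c.P 1 (oh * y * x⁻¹) := P_mul' (P_mul hoh hy) hxi (by omega)
  have ha := fun b (hb : c.P (h - 1) b) => f4_a (R := R) h hh hoh hx hvx hB hsupp hT hy hb
  generalize oh * y * x⁻¹ = e at he ha
  obtain ⟨hE, hvE⟩ := one_add he
  have hEi : c.P 1 ((1 + e)⁻¹ - 1) := one_add_inv le_rfl he
  set K := f4_k y e with hK
  have hKK : KK c 1 K := f4_k_KK hy he
  have hM := f4_P (c := c) h hoh hPx hB
  set g' := R.rho K g with hg'
  have hT' : Ty R h !![0, B; x, oh] g' := Ty_K1 hM hKK hT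
  have hsupp' : ∀ z, g'.1 z ≠ 0 → c.P (2 - h) (z - x) := by
    intro z hz
    have := supp_of_nn' (i := (h : ℤ) - 1) ha hz
    exact P_mono (by omega) this
  have hinv : ∀ f : Sp c, Ty R h !![0, B; x, oh] f → ∀ z t, c.P h t →
      f.1 (z * (1 + t)) = f.1 z := by
    intro f hf z t ht
    rw [Ty_right (by omega) hf ht]
    simp
  refine P_mono (by omega) (psi_dual (i := (h : ℤ) - 1) fun u hu => ?_)
  have hb1 := f4_b (R := R) (w := g) h hh hx hvx (fun z hz => P_mono (by omega) (hsupp z hz))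
    (hinv g hT) hu
  have hb2 := f4_b (R := R) (w := g') h hh hx hvx hsupp' (hinv g' hT') hu
  have hu1 : c.P 1 u := P_mono (by omega) hu
  obtain ⟨ha', hva⟩ := one_add hu1
  have hom : R.om (1 + u) ≠ 0 := om_ne ha'
  have hu2 : c.P (h - 1) (x * u * x⁻¹) := P_conj hx hu
  obtain ⟨hd', hvd⟩ := one_add (P_mono (by omega) hu2)
  set s : G2 D := dg (1 + u) (1 + x * u * x⁻¹) with hs
  have hsinv : R.rho s⁻¹ g = (R.om (1 + u))⁻¹ • g := by
    have h1 : R.rho s⁻¹ (R.rho s g) = g := rho_inv_mul _ _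
    rw [hb1, map_smul] at h1
    rw [← h1, smul_smul, inv_mul_cancel₀ hom, one_smul]
    rw [h1]
  have hfix : R.rho (K⁻¹ * (s * K * s⁻¹)) g = g := by
    rw [rho_mul, rho_mul, rho_mul, hsinv, map_smul, ← hg', map_smul, hb2, smul_smul,
      inv_mul_cancel₀ hom, one_smul, hg', rho_inv_mul]
  obtain ⟨k0, k1, k2, k3⟩ := f4_k_val (y := y) hE
  obtain ⟨i0, i1, i2, i3⟩ := f4_kinv_val (y := y) hE
  have hsv := dg_val ha' hd'
  have hsi := dg_inv_val ha' hd'
  rw [← hs] at hsv hsi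
  rw [← hK] at k0 k1 k2 k3 i0 i1 i2 i3
  set u2 := x * u * x⁻¹ with hu2'
  set ai := (1 + u)⁻¹ with hai'
  set di := (1 + u2)⁻¹ with hdi'
  have m00 : (K⁻¹ * (s * K * s⁻¹)).val 0 0 = 1 := by
    simp [mul00, mul01, mul10, mul11, k0, k1, k2, k3, i0, i1, i2, i3, hsv, hsi, ai, ha']
  have m01 : (K⁻¹ * (s * K * s⁻¹)).val 0 1 = 0 := by
    simp [mul00, mul01, mul10, mul11, k0, k1, k2, k3, i0, i1, i2, i3, hsv, hsi]
  have haa : (1 + u) * ai = 1 := mul_inv_cancel₀ ha'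
  have hdd : (1 + u2) * di = 1 := mul_inv_cancel₀ hd'
  have hEE : (1 + e)⁻¹ * (1 + e) = 1 := inv_mul_cancel₀ hE
  have m10 : (K⁻¹ * (s * K * s⁻¹)).val 1 0 = (1 + e)⁻¹ * ((u2 * y - y * u) * ai) := by
    simp only [mul00, mul01, mul10, mul11, k0, k1, k2, k3, i0, i1, i2, i3, hsv, hsi, Matrix.of_apply,
      Matrix.cons_val', Matrix.cons_val_zero, Matrix.cons_val_one, Matrix.cons_val_fin_one]
    have h1 : (u2 * y - y * u) * ai = (1 + u2) * y * ai - y * ((1 + u) * ai) := by noncomm_ring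
    rw [h1, haa]
    have h2 : -((1 + e)⁻¹ * y) * (((1 + u) * 1 + 0 * y) * ai + ((1 + u) * 0 + 0 * (1 + e)) * 0) =
        -((1 + e)⁻¹ * (y * ((1 + u) * ai))) := by noncomm_ring
    rw [h2, haa]
    noncomm_ring
  have m11 : (K⁻¹ * (s * K * s⁻¹)).val 1 1 - 1 = (1 + e)⁻¹ * ((u2 * e - e * u2) * di) := by
    simp only [mul00, mul01, mul10, mul11, k0, k1, k2, k3, i0, i1, i2, i3, hsv, hsi, Matrix.of_apply,
      Matrix.cons_val', Matrix.cons_val_zero, Matrix.cons_val_one, Matrix.cons_val_fin_one]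
    have h1 : (u2 * e - e * u2) * di = (1 + u2) * (1 + e) * di - (1 + e) * ((1 + u2) * di) := by
      noncomm_ring
    rw [h1, hdd, mul_one (1 + e), mul_sub (1 + e)⁻¹, hEE]
    noncomm_ring
  have q1 : c.P h (u2 * y - y * u) := P_sub (P_mul' hu2 hy (by omega)) (P_mul' hy hu (by omega))
  have q2 : c.P h (u2 * e - e * u2) := P_sub (P_mul' hu2 he (by omega)) (P_mul' he hu2 (by omega))
  have qa : c.P (h - 1) (ai - 1) := one_add_inv (by omega) hu
  have qd : c.P (h - 1) (di - 1) := one_add_inv (by omega) hu2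
  have qa0 : c.P 0 ai := Or.inr (by rw [hai', v_inv ha', hva]; simp)
  have qd0 : c.P 0 di := Or.inr (by rw [hdi', v_inv hd', hvd]; simp)
  have qE0 : c.P 0 (1 + e)⁻¹ := Or.inr (by rw [v_inv hE, hvE]; simp)
  have hKh : KK c h (K⁻¹ * (s * K * s⁻¹)) := by
    refine KK_iff.2 ⟨?_, ?_, ?_, ?_⟩
    · rw [m00, sub_self]; exact c.P_zero _
    · rw [m01]; exact c.P_zero _
    · rw [m10]; exact P_mul' qE0 (P_mul q1 qa0) (by omega)
    · rw [m11]; exact P_mul' qE0 (P_mul q2 qd0) (by omega)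
  have hfin := hT _ hKh
  rw [hfix, f4_trace, m01, m10, m11, mul_zero, add_zero] at hfin
  have hpsi : c.psi (B * ((1 + e)⁻¹ * ((u2 * y - y * u) * ai)) +
      oh * ((1 + e)⁻¹ * ((u2 * e - e * u2) * di))) = 1 := by
    have h1 := congrArg (fun f : Sp c => f.1 x) hfin
    change g.1 x = c.psi (B * ((1 + e)⁻¹ * ((u2 * y - y * u) * ai)) +
      oh * ((1 + e)⁻¹ * ((u2 * e - e * u2) * di))) * g.1 x at h1
    rw [hgx, mul_one] at h1
    exact h1.symm
  have hpsi2 : c.psi (B * (u2 * y - y * u) + oh * (u2 * e - e * u2)) = 1 := by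
    rw [← hpsi]
    apply psi_congr
    have h1 : B * (u2 * y - y * u) + oh * (u2 * e - e * u2) -
        (B * ((1 + e)⁻¹ * ((u2 * y - y * u) * ai)) + oh * ((1 + e)⁻¹ * ((u2 * e - e * u2) * di))) =
        -(B * (((1 + e)⁻¹ - 1) * ((u2 * y - y * u) * ai) + (u2 * y - y * u) * (ai - 1)) +
        oh * (((1 + e)⁻¹ - 1) * ((u2 * e - e * u2) * di) + (u2 * e - e * u2) * (di - 1))) := by
      noncomm_ring
    rw [h1]
    refine P_neg (P_add (P_mul' hB (P_add ?_ ?_) (n := h + 1) (by omega))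
      (P_mul' hoh (P_add ?_ ?_) (n := h + 1) (by omega)))
    · exact P_mul' hEi (P_mul q1 qa0) (by omega)
    · exact P_mul' q1 qa (by omega)
    · exact P_mul' hEi (P_mul q2 qd0) (by omega)
    · exact P_mul' q2 qd (by omega)
  have hcomm : c.P (2 - h) (e * oh - oh * e) := by
    by_cases he0 : e = 0
    · rw [he0, zero_mul, mul_zero, sub_zero]; exact c.P_zero _
    · have h1 : e * oh - oh * e = (e * oh * e⁻¹ - oh) * e := by
        rw [sub_mul, inv_mul_cancel_right₀ he0]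
      rw [h1]
      exact P_mul' (hconj e he0) he (by omega)
  have c1 : c.psi (B * (u2 * y)) = c.psi (x⁻¹ * y * B * x * u) := by
    rw [hu2']
    have h1 : B * (x * u * x⁻¹ * y) = (B * x * u) * (x⁻¹ * y) := by simp only [mul_assoc]
    rw [h1, c.psi_comm]
    congr 1
    simp only [mul_assoc]
  have c2 : c.psi (oh * (u2 * e - e * u2)) = 1 := by
    have h1 : oh * (u2 * e - e * u2) = oh * u2 * e + -(oh * e * u2) := by noncomm_ring
    rw [h1, AddChar.map_add_eq_mul, c.psi_comm (oh * u2), ← AddChar.map_add_eq_mul]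
    have h2 : e * (oh * u2) + -(oh * e * u2) = (e * oh - oh * e) * u2 := by noncomm_ring
    rw [h2]
    exact c.psi_P _ (P_mul' hcomm hu2 (by omega))
  rw [AddChar.map_add_eq_mul, c2, mul_one] at hpsi2
  have h3 : B * (u2 * y - y * u) = B * (u2 * y) + -(B * y * u) := by noncomm_ring
  rw [h3, AddChar.map_add_eq_mul, c1, ← AddChar.map_add_eq_mul] at hpsi2
  rw [← hpsi2]
  congr 1
  noncomm_ring

end Pool.Agent.Helper42.QD
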